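import Pool.Agent.Helper83.RB.St

set_option autoImplicit false

/-!
# Project RB, module SHW: Shirshov's lemma on words.
-/

namespace Pool.Agent.Helper78.RB

open Pool.Agent.Helper83.RB

/-- the factors of length `L` -/
def Fs {r : ℕ} (L : ℕ) (w : List (Fin r)) : Set (List (Fin r)) := {v | v.length = L ∧ v <:+: w}

theorem Fs_finite {r : ℕ} (L : ℕ) (w : List (Fin r)) : (Fs L w).Finite :=
  (List.finite_length_eq (Fin r) L).subset (fun _ hv => hv.1)

theorem Fs_mono {r : ℕ} (L : ℕ) {b w : List (Fin r)} (h : b <:+: w) : Fs L b ⊆ Fs L w :=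
  fun _ hv => ⟨hv.1, hv.2.trans h⟩

/-- cutting into blocks of length `K` -/
theorem cut {α : Type} (K : ℕ) : ∀ (d : ℕ) (w : List α), K * d ≤ w.length →
    ∃ (b : Fin d → List α) (rest : List α), w = (List.ofFn b).flatten ++ rest ∧
      ∀ i, (b i).length = K := by
  intro d
  induction d with
  | zero =>
    intro w _
    exact ⟨fun i => i.elim0, w, by simp, fun i => i.elim0⟩
  | succ d ih =>
    intro w hw
    have hK : K ≤ w.length := by
      refine le_trans ?_ hw
      rw [Nat.mul_succ]
      exact Nat.le_add_left _ _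
    obtain ⟨b, rest, hb, hlen⟩ := ih (w.drop K) (by
      rw [List.length_drop]
      rw [Nat.mul_succ] at hw
      omega)
    refine ⟨Fin.cons (w.take K) b, rest, ?_, ?_⟩
    · rw [List.ofFn_succ]
      simp only [Fin.cons_zero, Fin.cons_succ, List.flatten_cons]
      rw [List.append_assoc, ← hb, List.take_append_drop]
    · intro i
      refine Fin.cases ?_ (fun j => ?_) i
      · rw [Fin.cons_zero, List.length_take]
        omega
      · rw [Fin.cons_succ]
        exact hlen j

theorem claim {r d L : ℕ} (hd : 1 ≤ d) :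
    ∀ (n : ℕ) (w : List (Fin r)), L * d ^ n ≤ w.length → (Fs L w).ncard ≤ n →
    ∃ (w' : List (Fin r)) (b : Fin d → List (Fin r)) (rest : List (Fin r)),
      w' <:+: w ∧ w' = (List.ofFn b).flatten ++ rest ∧ (∀ i, Fs L (b i) = Fs L w') ∧
      L * d ≤ w'.length := by
  intro n
  induction n with
  | zero =>
    intro w hw hc
    exfalso
    rw [pow_zero, mul_one] at hw
    have h1 : w.take L ∈ Fs L w := by
      refine ⟨?_, (List.take_prefix L w).isInfix⟩
      rw [List.length_take]
      omega
    have h2 : Fs L w = ∅ := by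
      rw [← Set.ncard_eq_zero (Fs_finite L w)]
      omega
    rw [h2] at h1
    exact h1
  | succ n ih =>
    intro w hw hc
    obtain ⟨b, rest, hb, hlen⟩ := cut (L * d ^ n) d w (by
      rw [pow_succ] at hw
      rw [mul_assoc]
      exact hw)
    have hinf : ∀ i, b i <:+: w := by
      intro i
      have h1 : b i ∈ List.ofFn b := by
        rw [List.mem_ofFn]
        exact ⟨i, rfl⟩
      refine (List.infix_of_mem_flatten h1).trans ?_
      rw [hb]
      exact (List.prefix_append _ _).isInfix
    by_cases hall : ∀ i, Fs L (b i) = Fs L w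
    · refine ⟨w, b, rest, List.infix_refl w, hb, hall, le_trans ?_ hw⟩
      refine Nat.mul_le_mul_left L ?_
      calc d = d ^ 1 := (pow_one d).symm
        _ ≤ d ^ (n + 1) := Nat.pow_le_pow_right hd (by omega)
    · push Not at hall
      obtain ⟨i, hi⟩ := hall
      have hlt : (Fs L (b i)).ncard < (Fs L w).ncard :=
        Set.ncard_lt_ncard (lt_of_le_of_ne (Fs_mono L (hinf i)) hi) (Fs_finite L w)
      obtain ⟨w', b', rest', h1, h2, h3, h4⟩ := ih (b i) (by rw [hlen i]) (by omega)
      exact ⟨w', b', rest', h1.trans (hinf i), h2, h3, h4⟩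

/-- periodicity -/
theorem period {α : Type} (w : List α) (L q : ℕ) (hq : w.take L = (w.drop q).take L) :
    ∀ m : ℕ, m * q ≤ L + q → w.take (m * q) = (List.replicate m (w.take q)).flatten := by
  intro m
  induction m with
  | zero =>
    intro _
    simp
  | succ m ih =>
    intro hm
    have hm' : m * q ≤ L := by
      rw [Nat.succ_mul] at hm
      omega
    have h1 := ih (by omega)
    rw [List.replicate_succ, List.flatten_cons, ← h1, Nat.succ_mul, Nat.add_comm (m * q) q,
      List.take_add]
    congr 1
    have h2 : (w.drop q).take (m * q) = ((w.drop q).take L).take (m * q) := by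
      rw [List.take_take, Nat.min_eq_left hm']
    rw [h2, ← hq, List.take_take, Nat.min_eq_left hm']

/-- regrouping -/
theorem regroup {α : Type} : ∀ (d : ℕ) (b v : Fin d → List α), (∀ i, v i <:+: b i) →
    ∃ (l : List α) (s : Fin d → List α) (t : List α),
      (List.ofFn b).flatten = l ++ (List.ofFn fun i => v i ++ s i).flatten ++ t := by
  intro d
  induction d with
  | zero =>
    intro b v _
    exact ⟨[], fun i => i.elim0, [], by simp⟩
  | succ d ih =>
    intro b v h
    obtain ⟨l, s, t, hl⟩ := ih (fun i => b i.succ) (fun i => v i.succ) (fun i => h i.succ)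
    obtain ⟨p, s0, hp⟩ := h 0
    refine ⟨p, Fin.cons (s0 ++ l) s, t, ?_⟩
    rw [List.ofFn_succ, List.ofFn_succ]
    simp only [Fin.cons_zero, Fin.cons_succ, List.flatten_cons]
    rw [hl, ← hp]
    simp only [List.append_assoc]

theorem hSHW (hLEX : StLEX) : StSHW := by
  intro r d k hd hk
  have hfinL : {v : List (Fin r) | v.length = k * d}.Finite := List.finite_length_eq (Fin r) _
  refine ⟨(k * d) * d ^ ({v : List (Fin r) | v.length = k * d}.ncard), ?_⟩
  intro w hw
  have hL1 : 1 ≤ k * d := Nat.mul_pos hk hd
  obtain ⟨w', b, rest, hw', hb, hF, hlen⟩ := claim (L := k * d) hd _ w hw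
    (Set.ncard_le_ncard (fun _ hv => hv.1) hfinL)
  obtain ⟨s1, s2, hs⟩ := hw'
  by_cases hcard : (Fs (k * d) w').ncard < d
  · left
    -- the factors starting at positions 0, ..., d - 1
    have hlen2 : k * d + d ≤ w'.length + 1 := by
      refine le_trans ?_ (Nat.add_le_add_right hlen 1)
      obtain ⟨a, ha⟩ : ∃ a, k * d = a + 1 := ⟨k * d - 1, by omega⟩
      obtain ⟨c, hc⟩ : ∃ c, d = c + 1 := ⟨d - 1, by omega⟩
      rw [ha, hc]
      ring_nf
      nlinarith [Nat.zero_le (a * c)]
    have hmem : ∀ j ∈ (Finset.range d : Set ℕ), (w'.drop j).take (k * d) ∈ Fs (k * d) w' := by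
      intro j hj
      have hj' : j < d := by simpa using hj
      refine ⟨?_, ?_⟩
      · rw [List.length_take, List.length_drop]
        omega
      · exact ((List.take_prefix _ _).isInfix).trans (List.drop_suffix j w').isInfix
    have hpig : ∃ i ∈ (Finset.range d : Set ℕ), ∃ j ∈ (Finset.range d : Set ℕ), i ≠ j ∧
        (w'.drop i).take (k * d) = (w'.drop j).take (k * d) := by
      refine Set.exists_ne_map_eq_of_ncard_lt_of_maps_to ?_ hmem (Fs_finite _ _)
      rw [Set.ncard_coe_finset, Finset.card_range]
      exact hcard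
    have hpig' : ∃ i j : ℕ, i < j ∧ j < d ∧
        (w'.drop i).take (k * d) = (w'.drop j).take (k * d) := by
      obtain ⟨i, hi, j, hj, hij, he⟩ := hpig
      have hi' : i < d := by simpa using hi
      have hj' : j < d := by simpa using hj
      rcases lt_or_gt_of_ne hij with h | h
      · exact ⟨i, j, h, hj', he⟩
      · exact ⟨j, i, h, hi', he.symm⟩
    obtain ⟨i, j, hij, hjd, he⟩ := hpig'
    obtain ⟨q, rfl⟩ : ∃ q, j = i + q := ⟨j - i, by omega⟩
    have hq1 : 1 ≤ q := by omega
    have he' : (w'.drop i).take (k * d) = ((w'.drop i).drop q).take (k * d) := by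
      rw [List.drop_drop]
      exact he
    have hkq : k * q ≤ k * d := Nat.mul_le_mul_left k (by omega)
    have hper := period (w'.drop i) (k * d) q he' k (by omega)
    refine ⟨s1 ++ w'.take i, (w'.drop i).take q, (w'.drop i).drop (k * q) ++ s2, ?_, ?_⟩
    · intro h0
      have h1 := congrArg List.length h0
      rw [List.length_take, List.length_drop, List.length_nil] at h1
      omega
    · rw [← hper, ← hs]
      have e1 : w' = w'.take i ++ ((w'.drop i).take (k * q) ++ (w'.drop i).drop (k * q)) := by
        rw [List.take_append_drop, List.take_append_drop]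
      conv_lhs => rw [e1]
      simp only [List.append_assoc]
  · right
    rw [not_lt] at hcard
    -- a strictly decreasing family
    obtain ⟨T, hT⟩ : ∃ T : Finset (List (Fin r)), T ⊆ (Fs_finite (k * d) w').toFinset ∧
        T.card = d := by
      obtain ⟨T, h1, h2⟩ := Finset.exists_subset_card_eq
        (s := (Fs_finite (k * d) w').toFinset) (n := d) (by
          rw [← Set.ncard_eq_toFinset_card _ (Fs_finite (k * d) w')]
          exact hcard)
      exact ⟨T, h1, h2⟩
    obtain ⟨hTs, hTc⟩ := hT
    let e := T.orderEmbOfFin hTc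
    let v : Fin d → List (Fin r) := fun i => e (Fin.rev i)
    have hvF : ∀ i, v i ∈ Fs (k * d) w' := by
      intro i
      have h1 : e (Fin.rev i) ∈ T := Finset.orderEmbOfFin_mem T hTc (Fin.rev i)
      exact (Fs_finite (k * d) w').mem_toFinset.1 (hTs h1)
    have hvlt : ∀ i j, i < j → v j < v i := by
      intro i j hij
      exact e.lt_iff_lt.2 (Fin.rev_lt_rev.2 hij)
    obtain ⟨l, s, t, hreg⟩ := regroup d b v (fun i => by
      have h1 := hvF i
      rw [← hF i] at h1
      exact h1.2)
    refine ⟨s1 ++ l, t ++ rest ++ s2, fun i => v i ++ s i, ?_, ?_⟩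
    · rw [← hs, hb, hreg]
      simp only [List.append_assoc]
    · intro σ hσ
      exact hLEX r d (k * d) v s (fun i => (hvF i).1) hvlt σ hσ

end Pool.Agent.Helper78.RB
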